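import Pool.Agent.Helper76.CV.Goals

/-!
# Project CV (MP_eec6f5_gt), goal TTF
-/

open scoped ContDiff
open Filter Topology

namespace Pool.Agent.Helper67.CV.TTF

open Pool.Agent.Helper76.CV

lemma st_cd : ContDiff ℝ ∞ Real.smoothTransition := by
  rw [contDiff_infty]; intro n; exact Real.smoothTransition.contDiff

lemma st_d (x : ℝ) : HasDerivAt Real.smoothTransition (deriv Real.smoothTransition x) x :=
  ((st_cd.differentiable (by simp)) x).hasDerivAt

lemma st_d2 (x : ℝ) :
    HasDerivAt (deriv Real.smoothTransition) (deriv (deriv Real.smoothTransition) x) x := by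
  have h : ContDiff ℝ ∞ (deriv Real.smoothTransition) := by
    have := (contDiff_infty_iff_deriv (𝕜 := ℝ)).1 st_cd
    exact this.2
  exact ((h.differentiable (by simp)) x).hasDerivAt

lemma arg_d (P t : ℝ) (i : ℕ) :
    HasDerivAt (fun t : ℝ => 4 * (t - i * P) / P - 3 / 2) (4 / P) t := by
  have h1 : HasDerivAt (fun t : ℝ => t - i * P) 1 t := (hasDerivAt_id t).sub_const _
  have h2 := (h1.const_mul 4).div_const P
  have h3 := h2.sub_const (3 / 2)
  simpa using h3

lemma dTT (N : ℕ) (d : ℕ → ℤ) (P t : ℝ) :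
    HasDerivAt (TT N d P) (2 * Real.pi * ∑ i ∈ Finset.range N,
      (d i : ℝ) * (deriv Real.smoothTransition (4 * (t - i * P) / P - 3 / 2) * (4 / P))) t := by
  have h : ∀ i ∈ Finset.range N, HasDerivAt
      (fun t : ℝ => (d i : ℝ) * Real.smoothTransition (4 * (t - i * P) / P - 3 / 2))
      ((d i : ℝ) * (deriv Real.smoothTransition (4 * (t - i * P) / P - 3 / 2) * (4 / P))) t := by
    intro i _
    exact ((st_d _).comp t (arg_d P t i)).const_mul _
  have h2 := HasDerivAt.fun_sum h
  exact (h2.const_mul (2 * Real.pi)).const_add Real.pi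

lemma ddTT (N : ℕ) (d : ℕ → ℤ) (P t : ℝ) :
    HasDerivAt (deriv (TT N d P)) (2 * Real.pi * ∑ i ∈ Finset.range N,
      (d i : ℝ) * (deriv (deriv Real.smoothTransition) (4 * (t - i * P) / P - 3 / 2) *
        (4 / P) * (4 / P))) t := by
  have e : deriv (TT N d P) = fun t => 2 * Real.pi * ∑ i ∈ Finset.range N,
      (d i : ℝ) * (deriv Real.smoothTransition (4 * (t - i * P) / P - 3 / 2) * (4 / P)) := by
    funext t; exact (dTT N d P t).deriv
  rw [e]
  have h : ∀ i ∈ Finset.range N, HasDerivAt
      (fun t : ℝ => (d i : ℝ) * (deriv Real.smoothTransition (4 * (t - i * P) / P - 3 / 2) * (4 / P)))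
      ((d i : ℝ) * (deriv (deriv Real.smoothTransition) (4 * (t - i * P) / P - 3 / 2) *
        (4 / P) * (4 / P))) t := by
    intro i _
    exact (((st_d2 _).comp t (arg_d P t i)).mul_const (4 / P)).const_mul _
  have h2 := HasDerivAt.fun_sum h
  exact h2.const_mul (2 * Real.pi)

lemma sumbd (N : ℕ) (d : ℕ → ℤ) (f : ℕ → ℝ) (B : ℝ) (hf : ∀ i, |f i| ≤ B) :
    |∑ i ∈ Finset.range N, (d i : ℝ) * f i| ≤ (∑ i ∈ Finset.range N, |(d i : ℝ)|) * B := by
  rw [Finset.sum_mul]
  refine (Finset.abs_sum_le_sum_abs _ _).trans (Finset.sum_le_sum fun i _ => ?_)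
  rw [abs_mul]
  exact mul_le_mul_of_nonneg_left (hf i) (abs_nonneg _)

theorem t (h : STB) : TTF := by
  obtain ⟨K, hK, hS⟩ := h
  intro N d
  refine ⟨?_, ?_, ?_⟩
  · intro P
    unfold TT
    refine contDiff_const.add (contDiff_const.mul (ContDiff.sum fun i _ => contDiff_const.mul ?_))
    refine st_cd.comp ?_
    fun_prop
  · set D := ∑ i ∈ Finset.range N, |(d i : ℝ)| with hD
    have hD0 : 0 ≤ D := Finset.sum_nonneg fun i _ => abs_nonneg _
    have hpi := Real.pi_pos
    refine ⟨max 1 (10 ^ 6 * (32 * Real.pi * (D * K))), le_max_left _ _, ?_⟩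
    intro P t hP
    have hP1 : 1 ≤ P := (le_max_left _ _).trans hP
    have hP2 : 10 ^ 6 * (32 * Real.pi * (D * K)) ≤ P := (le_max_right _ _).trans hP
    have hP0 : 0 < P := by linarith
    have hDK : 0 ≤ D * K := mul_nonneg hD0 hK.le
    have h4 : 0 < 4 / P := by positivity
    have h41 : 4 / P ≤ 4 := by rw [div_le_iff₀ hP0]; nlinarith
    have key : 32 * Real.pi * (D * K) / P ≤ 1 / 10 ^ 6 := by
      rw [div_le_iff₀ hP0]
      nlinarith
    constructor
    · rw [(dTT N d P t).deriv, abs_mul, abs_of_pos (by positivity : 0 < 2 * Real.pi)]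
      have := sumbd N d (fun i => deriv Real.smoothTransition (4 * (t - i * P) / P - 3 / 2) * (4 / P))
        (K * (4 / P)) (by
          intro i
          rw [abs_mul, abs_of_pos h4]
          exact mul_le_mul_of_nonneg_right (hS _).2.1 h4.le)
      refine (mul_le_mul_of_nonneg_left this (by positivity)).trans ?_
      refine le_trans ?_ key
      rw [← hD]
      have e : 2 * Real.pi * (D * (K * (4 / P))) = 8 * Real.pi * (D * K) / P := by ring
      rw [e]
      gcongr
      norm_num
    · rw [(ddTT N d P t).deriv, abs_mul, abs_of_pos (by positivity : 0 < 2 * Real.pi)]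
      have := sumbd N d (fun i => deriv (deriv Real.smoothTransition) (4 * (t - i * P) / P - 3 / 2) *
        (4 / P) * (4 / P))
        (K * (4 / P) * 4) (by
          intro i
          rw [abs_mul, abs_mul, abs_of_pos h4]
          exact mul_le_mul (mul_le_mul_of_nonneg_right (hS _).2.2 h4.le) h41 h4.le (by positivity))
      refine (mul_le_mul_of_nonneg_left this (by positivity)).trans ?_
      refine le_trans ?_ key
      rw [← hD]
      have e : 2 * Real.pi * (D * (K * (4 / P) * 4)) = 32 * Real.pi * (D * K) / P := by ring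
      rw [e]
  · intro P t i hP ht
    have hP0 : 0 < P := by linarith
    have hev : ∀ᶠ u in 𝓝 t, |u - i * P| < P / 8 := by
      have hc : Continuous fun u : ℝ => |u - i * P| := by fun_prop
      exact hc.continuousAt.eventually_lt continuousAt_const ht
    filter_upwards [hev] with u hu
    have hu' := abs_lt.1 hu
    have hval : ∀ j : ℕ, Real.smoothTransition (4 * (u - j * P) / P - 3 / 2) =
        ((if j < i then (1 : ℤ) else 0 : ℤ) : ℝ) := by
      intro j
      by_cases hj : j < i
      · have hj' : (j : ℝ) + 1 ≤ i := by exact_mod_cast hj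
        rw [if_pos hj, Real.smoothTransition.one_of_one_le]
        · simp
        · have h1 : (5 / 2) * P ≤ 4 * (u - j * P) := by nlinarith
          have h2 : 5 / 2 ≤ 4 * (u - j * P) / P := by rw [le_div_iff₀ hP0]; exact h1
          linarith
      · have hj' : (i : ℝ) ≤ j := by exact_mod_cast not_lt.1 hj
        rw [if_neg hj, Real.smoothTransition.zero_of_nonpos]
        · simp
        · have h1 : 4 * (u - j * P) ≤ (3 / 2) * P := by nlinarith
          have h2 : 4 * (u - j * P) / P ≤ 3 / 2 := by rw [div_le_iff₀ hP0]; exact h1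
          linarith
    have hT : TT N d P u = Real.pi + ((∑ j ∈ Finset.range N, d j * (if j < i then (1 : ℤ) else 0) : ℤ) : ℝ) *
        (2 * Real.pi) := by
      unfold TT
      simp only [hval]
      push_cast
      ring
    rw [hT]
    constructor
    · rw [Real.cos_add_int_mul_two_pi, Real.cos_pi]
    · rw [Real.sin_add_int_mul_two_pi, Real.sin_pi]

end Pool.Agent.Helper67.CV.TTF
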