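import Pool.Agent.Helper76.CV.Goals

/-!
# Packet WF4 of project CV
-/

open scoped ContDiff
open Filter Topology

namespace Pool.Agent.Helper67.CV.WF4

open Pool.Agent.Helper76.CV

theorem exp_aux {x : ℝ} (h0 : 0 ≤ x) (h1 : x ≤ 1 / 10) :
    995 / 1000 ≤ Real.exp (-x) * (1 + x) := by
  have hb := Real.exp_bound' h0 (by linarith : x ≤ 1) (n := 4) (by norm_num)
  simp only [Finset.sum_range_succ, Finset.sum_range_zero, Nat.factorial] at hb
  norm_num at hb
  have he : 0 < Real.exp x := Real.exp_pos x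
  rw [Real.exp_neg, inv_mul_eq_div, le_div_iff₀ he]
  have h2 : x ^ 2 ≤ 1 / 100 := by nlinarith
  have h3 : x ^ 3 ≤ 1 / 1000 := by nlinarith [mul_nonneg h0 h0]
  have h4 : x ^ 4 ≤ 1 / 10000 := by nlinarith [mul_nonneg h0 h0]
  nlinarith [hb, h2, h3, h4]

theorem t (h1 : WF1) : WF4 := by
  intro v hv hz
  obtain ⟨-, hW0, -, hWp⟩ := h1
  have hw : 0 < 4 / 25 - v := by linarith
  obtain ⟨hW, hW', -⟩ := hWp _ hw
  have hl : lam v = Real.tan (13 * W (4 / 25 - v)) := rfl
  have hs : sg v = lam v * deriv W (4 / 25 - v) := rfl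
  set w := 4 / 25 - v with hwdef
  have hx : 0 < 1 / (1000 * w) := by positivity
  by_cases hc : 1 / 100 ≤ w
  · have hx1 : 1 / (1000 * w) ≤ 1 / 10 := by
      rw [div_le_div_iff₀ (by positivity) (by norm_num)]
      linarith
    have h2 := exp_aux hx.le hx1
    rw [← hW'] at h2
    rw [hs]
    have h3 : (995 / 1000 : ℝ) ^ 2 ≤ deriv W w ^ 2 := pow_le_pow_left₀ (by norm_num) h2 2
    have h4 : lam v ^ 2 * (995 / 1000 : ℝ) ^ 2 ≤ lam v ^ 2 * deriv W w ^ 2 :=
      mul_le_mul_of_nonneg_left h3 (sq_nonneg _)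
    have h5 : 0 ≤ lam v ^ 2 := sq_nonneg _
    rw [mul_pow]
    nlinarith
  · have hc' : w < 1 / 100 := not_le.1 hc
    have hz0 : 0 ≤ 13 * W w := by
      have := hW0 w
      linarith
    have hz1 : 13 * W w ≤ 13 / 100 := by
      have h2 : Real.exp (-(1 / (1000 * w))) ≤ 1 := by
        rw [Real.exp_le_one_iff]
        linarith
      have h3 : W w ≤ w := by
        rw [hW]
        exact mul_le_of_le_one_right hw.le h2
      linarith
    rw [hl, Real.tan_eq_sin_div_cos]
    set z := 13 * W w with hzdef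
    have hsin : Real.sin z ≤ z := Real.sin_le hz0
    have hsin0 : 0 ≤ Real.sin z := Real.sin_nonneg_of_nonneg_of_le_pi hz0 (by linarith [Real.pi_pos])
    have hcos : 1 - z ^ 2 / 2 ≤ Real.cos z := Real.one_sub_sq_div_two_le_cos
    have hcos1 : (99 / 100 : ℝ) ≤ Real.cos z := by nlinarith
    have hcos2 : (98 / 100 : ℝ) ≤ Real.cos z ^ 2 := by nlinarith
    have hsin2 : Real.sin z ^ 2 ≤ 169 / 10000 := by nlinarith
    have h6 : (Real.sin z / Real.cos z) ^ 2 ≤ 13 * (15 / 10000) := by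
      rw [div_pow, div_le_iff₀ (by linarith)]
      nlinarith
    have h7 : 0 ≤ 13 * (78 / 1000 * sg v ^ 2) := by positivity
    linarith

end Pool.Agent.Helper67.CV.WF4
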